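import Pool.Agent.R745.CDX.Defs

/-! CDX-XDOM (MP_990a44_co): there is a dominating common letter. -/

set_option autoImplicit false

namespace R745CDX

open Finset H825CD

namespace XDx

theorem half (k l m a b z w : ℝ) (hk : 1 ≤ k) (hl : 1 ≤ l) (hm0 : 0 ≤ m)
    (hklm : k * (l + 1) * m ≤ 1) (ha0 : 0 ≤ a) (hb0 : 0 ≤ b) (ha1 : a ≤ 1) (hb1 : b ≤ 1)
    (hz : 0 ≤ z) (hw : 0 ≤ w) (ha : a ≤ k * z) (hb : b ≤ l * w) (h1 : z * (1 - b + w) ≤ m)
    (h2 : w * (1 - a + z) ≤ m) : a ≤ 1 / 2 := by
  have hlb : 1 ≤ l - (l - 1) * b := by nlinarith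
  have hka : 1 ≤ k - (k - 1) * a := by nlinarith
  have e1 : a * (l - (l - 1) * b) ≤ k * l * m := by
    calc a * (l - (l - 1) * b) ≤ (k * z) * (l - (l - 1) * b) := by gcongr
      _ ≤ (k * z) * (l * (1 - b + w)) := by
          have : l - (l - 1) * b ≤ l * (1 - b + w) := by nlinarith
          have hkz : 0 ≤ k * z := by positivity
          exact mul_le_mul_of_nonneg_left this hkz
      _ = k * l * (z * (1 - b + w)) := by ring
      _ ≤ k * l * m := by gcongr
  have e2 : b * (k - (k - 1) * a) ≤ k * l * m := by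
    calc b * (k - (k - 1) * a) ≤ (l * w) * (k - (k - 1) * a) := by gcongr
      _ ≤ (l * w) * (k * (1 - a + z)) := by
          have : k - (k - 1) * a ≤ k * (1 - a + z) := by nlinarith
          have hkz : 0 ≤ l * w := by positivity
          exact mul_le_mul_of_nonneg_left this hkz
      _ = k * l * (w * (1 - a + z)) := by ring
      _ ≤ k * l * m := by gcongr
  have e2' : b ≤ k * l * m := by nlinarith
  have e3 : k * l * m * (l + 1) ≤ l := by
    calc k * l * m * (l + 1) = l * (k * (l + 1) * m) := by ring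
      _ ≤ l * 1 := by gcongr
      _ = l := mul_one l
  set s := k * l * m with hs
  by_contra hcon
  push Not at hcon
  have e4 : l - (l - 1) * s ≤ l - (l - 1) * b := by nlinarith
  have e5 : 2 * s ≤ l - (l - 1) * s := by nlinarith
  have e6 : 0 < l - (l - 1) * b := by linarith
  have e7 : 1 / 2 * (l - (l - 1) * b) < a * (l - (l - 1) * b) :=
    mul_lt_mul_of_pos_right hcon e6
  linarith

theorem step (D v v0 m m0 : ℝ) (hv0 : 0 < v0) (hv : v0 ≤ v) (h : D * v ≤ m) (hm : m ≤ m0)
    (hm0 : 0 ≤ m0) : D ≤ m0 / v0 := by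
  rw [le_div_iff₀ hv0]
  rcases le_total D 0 with hD | hD
  · nlinarith
  · nlinarith

theorem num5 (m a b z w x y : ℝ) (l : ℕ) (hl : l ≤ 4) (hm0 : 0 ≤ m) (hm9 : m ≤ 1 / 9)
    (ha0 : 0 ≤ a) (hb0 : 0 ≤ b) (ha1 : a ≤ 1) (hb1 : b ≤ 1)
    (hz : 0 ≤ z) (hw : 0 ≤ w) (haK : a ≤ (4 - l) * z) (hb : b ≤ l * w)
    (h1 : z * (1 - b + w) ≤ m) (h2 : w * (1 - a + z) ≤ m) (hzw : z * w ≤ m)
    (i1 : (1 - b + 2 * w - y) * (1 - a + 2 * z) ≤ 4 * m)
    (i2 : (1 - a - x + z) * (y + w) ≤ m) (i3 : (1 - b - y + w) * (x + z) ≤ m) :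
    1 / 2 ≤ x ∧ 1 / 2 ≤ y := by
  interval_cases l
  · -- (4, 0)
    norm_num at haK hb
    have hz9 := step z (1 - b + w) 1 m (1 / 9) (by norm_num) (by linarith) h1 hm9 (by norm_num)
    norm_num at hz9
    have s1 := step _ _ (7 / 9) _ (4 / 9) (by norm_num) (by linarith) i1 (by linarith)
      (by norm_num)
    norm_num at s1
    have s2 := step _ _ (3 / 7) _ (1 / 9) (by norm_num) (by linarith) i2 hm9 (by norm_num)
    norm_num at s2
    have s3 := step _ _ (14 / 27) _ (1 / 9) (by norm_num) (by linarith) i3 hm9 (by norm_num)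
    norm_num at s3
    have s4 := step _ _ (11 / 14) _ (1 / 9) (by norm_num) (by linarith) i2 hm9 (by norm_num)
    norm_num at s4
    constructor <;> linarith
  · -- (3, 1)
    norm_num at haK hb
    have hz9 := step z (1 - b + w) 1 m (1 / 9) (by norm_num) (by linarith) h1 hm9 (by norm_num)
    norm_num at hz9
    have s1 := step _ _ (8 / 9) _ (4 / 9) (by norm_num) (by linarith) i1 (by linarith)
      (by norm_num)
    norm_num at s1
    have s2 := step _ _ (1 / 2) _ (1 / 9) (by norm_num) (by linarith) i2 hm9 (by norm_num)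
    norm_num at s2
    have s3 := step _ _ (2 / 3) _ (1 / 9) (by norm_num) (by linarith) i3 hm9 (by norm_num)
    norm_num at s3
    constructor <;> linarith
  · -- (2, 2)
    norm_num at haK hb
    have e1 : z * b ≤ z * (2 * w) := mul_le_mul_of_nonneg_left hb hz
    have e2 : w * a ≤ w * (2 * z) := mul_le_mul_of_nonneg_left haK hw
    have hz2 : z ≤ 2 / 9 := by linarith
    have hw2 : w ≤ 2 / 9 := by linarith
    have hz7 := step z (1 - b + w) (7 / 9) m (1 / 9) (by norm_num) (by linarith) h1 hm9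
      (by norm_num)
    norm_num at hz7
    have s1 := step _ _ 1 _ (4 / 9) (by norm_num) (by linarith) i1 (by linarith)
      (by norm_num)
    norm_num at s1
    have s2 := step _ _ (5 / 9) _ (1 / 9) (by norm_num) (by linarith) i2 hm9 (by norm_num)
    norm_num at s2
    constructor <;> linarith
  · -- (1, 3)
    norm_num at haK hb
    have hw9 := step w (1 - a + z) 1 m (1 / 9) (by norm_num) (by linarith) h2 hm9 (by norm_num)
    norm_num at hw9
    have s1 := step _ _ 1 _ (4 / 9) (by norm_num) (by linarith) i1 (by linarith)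
      (by norm_num)
    norm_num at s1
    have s2 := step _ _ (4 / 9) _ (1 / 9) (by norm_num) (by linarith) i2 hm9 (by norm_num)
    norm_num at s2
    have s3 := step _ _ (3 / 4) _ (1 / 9) (by norm_num) (by linarith) i3 hm9 (by norm_num)
    norm_num at s3
    constructor <;> linarith
  · -- (0, 4)
    norm_num at haK hb
    have hw9 := step w (1 - a + z) 1 m (1 / 9) (by norm_num) (by linarith) h2 hm9 (by norm_num)
    norm_num at hw9
    have s1 := step _ _ 1 _ (4 / 9) (by norm_num) (by linarith) i1 (by linarith)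
      (by norm_num)
    norm_num at s1
    have s2 := step _ _ (4 / 9) _ (1 / 9) (by norm_num) (by linarith) i2 hm9 (by norm_num)
    norm_num at s2
    have s3 := step _ _ (3 / 4) _ (1 / 9) (by norm_num) (by linarith) i3 hm9 (by norm_num)
    norm_num at s3
    constructor <;> linarith

theorem num6 (m a b z w x y : ℝ) (l : ℕ) (hl : l ≤ 5) (hm0 : 0 ≤ m) (hm12 : m ≤ 1 / 12)
    (ha0 : 0 ≤ a) (hb0 : 0 ≤ b) (ha1 : a ≤ 1) (hb1 : b ≤ 1)
    (hz : 0 ≤ z) (hw : 0 ≤ w) (haK : a ≤ (5 - l) * z) (hb : b ≤ l * w)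
    (h1 : z * (1 - b + w) ≤ m) (h2 : w * (1 - a + z) ≤ m) (hzw : z * w ≤ m)
    (i1 : (1 - b + 2 * w - y) * (1 - a + 2 * z) ≤ 4 * m)
    (i2 : (1 - a - x + z) * (y + w) ≤ m) (i3 : (1 - b - y + w) * (x + z) ≤ m) :
    1 / 2 ≤ x ∧ 1 / 2 ≤ y := by
  interval_cases l
  · -- (5, 0)
    norm_num at haK hb
    have hz9 := step z (1 - b + w) 1 m (1 / 12) (by norm_num) (by linarith) h1 hm12 (by norm_num)
    norm_num at hz9
    have s1 := step _ _ (3 / 4) _ (1 / 3) (by norm_num) (by linarith) i1 (by linarith)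
      (by norm_num)
    norm_num at s1
    have s2 := step _ _ (5 / 9) _ (1 / 12) (by norm_num) (by linarith) i2 hm12 (by norm_num)
    norm_num at s2
    constructor <;> linarith
  · -- (4, 1)
    norm_num at haK hb
    have hz9 := step z (1 - b + w) 1 m (1 / 12) (by norm_num) (by linarith) h1 hm12 (by norm_num)
    norm_num at hz9
    have s1 := step _ _ (5 / 6) _ (1 / 3) (by norm_num) (by linarith) i1 (by linarith)
      (by norm_num)
    norm_num at s1
    have s2 := step _ _ (3 / 5) _ (1 / 12) (by norm_num) (by linarith) i2 hm12 (by norm_num)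
    norm_num at s2
    constructor <;> linarith
  · -- (3, 2)
    norm_num at haK hb
    have e1 : z * b ≤ z * (2 * w) := mul_le_mul_of_nonneg_left hb hz
    have hz6 : z ≤ 1 / 6 := by linarith
    have s1 := step _ _ (5 / 6) _ (1 / 3) (by norm_num) (by linarith) i1 (by linarith)
      (by norm_num)
    norm_num at s1
    have s2 := step _ _ (3 / 5) _ (1 / 12) (by norm_num) (by linarith) i2 hm12 (by norm_num)
    norm_num at s2
    constructor <;> linarith
  · -- (2, 3)
    norm_num at haK hb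
    have e2 : w * a ≤ w * (2 * z) := mul_le_mul_of_nonneg_left haK hw
    have hw6 : w ≤ 1 / 6 := by linarith
    have hz8 := step z (1 - b + w) (2 / 3) m (1 / 12) (by norm_num) (by linarith) h1 hm12
      (by norm_num)
    norm_num at hz8
    have s1 := step _ _ 1 _ (1 / 3) (by norm_num) (by linarith) i1 (by linarith)
      (by norm_num)
    norm_num at s1
    have s2 := step _ _ (1 / 2) _ (1 / 12) (by norm_num) (by linarith) i2 hm12 (by norm_num)
    norm_num at s2
    constructor <;> linarith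
  · -- (1, 4)
    norm_num at haK hb
    have hw9 := step w (1 - a + z) 1 m (1 / 12) (by norm_num) (by linarith) h2 hm12 (by norm_num)
    norm_num at hw9
    have s1 := step _ _ 1 _ (1 / 3) (by norm_num) (by linarith) i1 (by linarith)
      (by norm_num)
    norm_num at s1
    have s2 := step _ _ (1 / 2) _ (1 / 12) (by norm_num) (by linarith) i2 hm12 (by norm_num)
    norm_num at s2
    constructor <;> linarith
  · -- (0, 5)
    norm_num at haK hb
    have hw9 := step w (1 - a + z) 1 m (1 / 12) (by norm_num) (by linarith) h2 hm12 (by norm_num)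
    norm_num at hw9
    have s1 := step _ _ 1 _ (1 / 3) (by norm_num) (by linarith) i1 (by linarith)
      (by norm_num)
    norm_num at s1
    have s2 := step _ _ (1 / 2) _ (1 / 12) (by norm_num) (by linarith) i2 hm12 (by norm_num)
    norm_num at s2
    have s3 := step _ _ (5 / 6) _ (1 / 12) (by norm_num) (by linarith) i3 hm12 (by norm_num)
    norm_num at s3
    constructor <;> linarith

theorem num (Q : ℕ) (m : ℝ) (k l : ℕ) (a b z w : ℝ) (hp : PureX Q m k l a b z w)
    (hkl : k + l + 1 ≤ Q) (x y : ℝ)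
    (i1 : (1 - a + 2 * z) * (1 - b + 2 * w - y) ≤ 4 * m)
    (i2 : (1 - a - x + z) * (y + w) ≤ m) (i3 : (1 - b - y + w) * (x + z) ≤ m) :
    1 / 2 ≤ x ∧ 1 / 2 ≤ y := by
  obtain ⟨hQ, hm0, hm, -, ha0, hb0, ha1, hb1, hz, hw, ha, hb, h1, h2⟩ := hp
  have i1' : (1 - b + 2 * w - y) * (1 - a + 2 * z) ≤ 4 * m := by rw [mul_comm]; exact i1
  have hzw : z * w ≤ m := by
    have : 0 ≤ z * (1 - b) := mul_nonneg hz (by linarith)
    linarith
  rcases hQ with rfl | rfl
  · have hm9 : m ≤ 1 / 9 := by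
      have : (qb 5 : ℝ) = 9 := by
        unfold qb
        norm_num
      rw [this] at hm
      linarith
    have hk : (k : ℝ) ≤ 4 - l := by
      have h3 : k + l ≤ 4 := by omega
      have h4 : (k : ℝ) + l ≤ 4 := by exact_mod_cast h3
      linarith
    exact num5 m a b z w x y l (by omega) hm0 hm9 ha0 hb0 ha1 hb1 hz hw
      (ha.trans (mul_le_mul_of_nonneg_right hk hz)) hb h1 h2 hzw i1' i2 i3
  · have hm12 : m ≤ 1 / 12 := by
      have : (qb 6 : ℝ) = 12 := by
        unfold qb
        norm_num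
      rw [this] at hm
      linarith
    have hk : (k : ℝ) ≤ 5 - l := by
      have h3 : k + l ≤ 5 := by omega
      have h4 : (k : ℝ) + l ≤ 5 := by exact_mod_cast h3
      linarith
    exact num6 m a b z w x y l (by omega) hm0 hm12 ha0 hb0 ha1 hb1 hz hw
      (ha.trans (mul_le_mul_of_nonneg_right hk hz)) hb h1 h2 hzw i1' i2 i3

/-- the median letter -/
theorem median {N : ℕ} (C : Finset (Fin N)) (α β : Fin N → ℝ) (m a b z w : ℝ) (hz : 0 ≤ z)
    (hw : 0 ≤ w) (ha1 : a ≤ 1) (hα : ∀ x ∈ C, 0 ≤ α x) (hβ : ∀ x ∈ C, 0 ≤ β x)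
    (sα : ∑ x ∈ C, α x + a = 1) (sβ : ∑ x ∈ C, β x + b = 1)
    (hsplit : ∀ P ⊆ C, (∑ x ∈ P, α x + z) * (∑ x ∈ C \ P, β x + w) ≤ m) (hCn : C.Nonempty) :
    ∃ t ∈ C, (1 - a + 2 * z) * (1 - b + 2 * w - β t) ≤ 4 * m ∧
      (1 - a - α t + z) * (β t + w) ≤ m ∧ (1 - b - β t + w) * (α t + z) ≤ m := by
  have hβn : ∀ P ⊆ C, 0 ≤ ∑ x ∈ P, β x := fun P hP => sum_nonneg fun x hx => hβ x (hP hx)
  have hαn : ∀ P ⊆ C, 0 ≤ ∑ x ∈ P, α x := fun P hP => sum_nonneg fun x hx => hα x (hP hx)
  have hTn : (C.filter (fun t => 1 - a ≤ 2 * ∑ x ∈ C.filter (fun x => x ≤ t), α x)).Nonempty := by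
    refine ⟨C.max' hCn, mem_filter.2 ⟨max'_mem _ _, ?_⟩⟩
    have : C.filter (fun x => x ≤ C.max' hCn) = C := filter_true_of_mem fun x hx => le_max' _ _ hx
    rw [this]
    linarith
  set t := (C.filter (fun t => 1 - a ≤ 2 * ∑ x ∈ C.filter (fun x => x ≤ t), α x)).min' hTn
    with ht
  have htm := min'_mem _ hTn
  rw [← ht, mem_filter] at htm
  obtain ⟨htC, ht1⟩ := htm
  have ht0 : 2 * ∑ x ∈ C.filter (fun x => x < t), α x ≤ 1 - a := by
    rcases (C.filter (fun x => x < t)).eq_empty_or_nonempty with h0 | h0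
    · rw [h0, sum_empty]
      linarith
    · have hs := max'_mem _ h0
      set s := (C.filter (fun x => x < t)).max' h0 with hsd
      rw [mem_filter] at hs
      have e1 : C.filter (fun x => x < t) = C.filter (fun x => x ≤ s) := by
        ext x
        rw [mem_filter, mem_filter]
        constructor
        · intro hx
          exact ⟨hx.1, le_max' _ _ (mem_filter.2 hx)⟩
        · intro hx
          exact ⟨hx.1, lt_of_le_of_lt hx.2 hs.2⟩
      rw [e1]
      by_contra hcon
      push Not at hcon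
      have h2 : s ∈ C.filter (fun t => 1 - a ≤ 2 * ∑ x ∈ C.filter (fun x => x ≤ t), α x) :=
        mem_filter.2 ⟨hs.1, hcon.le⟩
      have h3 := min'_le _ _ h2
      rw [← ht] at h3
      exact absurd hs.2 (not_lt.2 h3)
  have hP1 : C.filter (fun x => x ≤ t) ⊆ C := filter_subset _ _
  have hP0 : C.filter (fun x => x < t) ⊆ C := filter_subset _ _
  have s1 := hsplit _ hP1
  have s2 := hsplit _ (sdiff_subset (s := C) (t := C.filter (fun x => x < t)))
  rw [Finset.sdiff_sdiff_eq_self hP0] at s2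
  have n1 := hβn _ (sdiff_subset (s := C) (t := C.filter (fun x => x ≤ t)))
  have n0 := hβn _ hP0
  have d0 := sum_sdiff (f := α) hP0
  have s1' : ((1 - a) / 2 + z) * (∑ x ∈ C \ C.filter (fun x => x ≤ t), β x + w) ≤ m := by
    refine le_trans ?_ s1
    apply mul_le_mul
    · linarith
    · exact le_rfl
    · linarith
    · linarith [hαn _ hP1]
  have s2' : ((1 - a) / 2 + z) * (∑ x ∈ C.filter (fun x => x < t), β x + w) ≤ m := by
    refine le_trans ?_ s2
    apply mul_le_mul
    · linarith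
    · exact le_rfl
    · linarith
    · linarith [hαn _ (sdiff_subset (s := C) (t := C.filter (fun x => x < t)))]
  have hβt : ∑ x ∈ C.filter (fun x => x < t), β x + β t +
      ∑ x ∈ C \ C.filter (fun x => x ≤ t), β x = 1 - b := by
    have e2 : C.filter (fun x => x ≤ t) = insert t (C.filter (fun x => x < t)) := by
      ext x
      rw [mem_filter, mem_insert, mem_filter]
      constructor
      · rintro ⟨h1, h2⟩
        rcases h2.lt_or_eq with h3 | h3
        · exact Or.inr ⟨h1, h3⟩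
        · exact Or.inl h3
      · rintro (rfl | ⟨h1, h2⟩)
        · exact ⟨htC, le_rfl⟩
        · exact ⟨h1, h2.le⟩
    have e3 : t ∉ C.filter (fun x => x < t) := by
      intro h3
      exact absurd (mem_filter.1 h3).2 (lt_irrefl _)
    have d1 := sum_sdiff (f := β) hP1
    rw [e2, sum_insert e3] at d1
    rw [e2]
    linarith
  have hts : ({t} : Finset (Fin N)) ⊆ C := singleton_subset_iff.2 htC
  have s3 := hsplit (C \ {t}) sdiff_subset
  rw [Finset.sdiff_sdiff_eq_self hts, sum_singleton] at s3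
  have s4 := hsplit {t} hts
  rw [sum_singleton] at s4
  have d2 := sum_sdiff (f := α) hts
  have d3 := sum_sdiff (f := β) hts
  rw [sum_singleton] at d2 d3
  refine ⟨t, htC, ?_, ?_, ?_⟩
  · have e : (1 - a + 2 * z) * (1 - b + 2 * w - β t) =
        2 * (((1 - a) / 2 + z) * (∑ x ∈ C \ C.filter (fun x => x ≤ t), β x + w) +
          ((1 - a) / 2 + z) * (∑ x ∈ C.filter (fun x => x < t), β x + w)) := by
      rw [← hβt]
      ring
    rw [e]
    linarith
  · have e : 1 - a - α t = ∑ x ∈ C \ {t}, α x := by linarith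
    rw [e]
    exact s3
  · have e : 1 - b - β t = ∑ x ∈ C \ {t}, β x := by linarith
    rw [e, mul_comm]
    exact s4

theorem qbl (Q k l : ℕ) (hQ : Q = 5 ∨ Q = 6) (hkl : k + l ≤ Q) : k * (l + 1) ≤ qb Q := by
  have hk : k ≤ Q := by omega
  have hl : l ≤ Q - k := by omega
  rcases hQ with rfl | rfl
  · have e : qb 5 = 9 := by
      unfold qb
      norm_num
    rw [e]
    interval_cases k <;> omega
  · have e : qb 6 = 12 := by
      unfold qb
      norm_num
    rw [e]
    interval_cases k <;> omega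

theorem halfX (Q : ℕ) (m : ℝ) (k l : ℕ) (a b z w : ℝ) (hp : PureX Q m k l a b z w)
    (hk : 1 ≤ k) (hl : 1 ≤ l) : a ≤ 1 / 2 ∧ b ≤ 1 / 2 := by
  obtain ⟨hQ, hm0, hm, hkl, ha0, hb0, ha1, hb1, hz, hw, ha, hb, h1, h2⟩ := hp
  have hk1 : (1 : ℝ) ≤ k := by exact_mod_cast hk
  have hl1 : (1 : ℝ) ≤ l := by exact_mod_cast hl
  have e1 : (k : ℝ) * (l + 1) * m ≤ 1 := by
    have h3 : (k : ℝ) * (l + 1) ≤ qb Q := by exact_mod_cast qbl Q k l hQ hkl
    calc (k : ℝ) * (l + 1) * m ≤ qb Q * m := by gcongr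
      _ ≤ 1 := hm
  have e2 : (l : ℝ) * (k + 1) * m ≤ 1 := by
    have h3 : (l : ℝ) * (k + 1) ≤ qb Q := by exact_mod_cast qbl Q l k hQ (by omega)
    calc (l : ℝ) * (k + 1) * m ≤ qb Q * m := by gcongr
      _ ≤ 1 := hm
  exact ⟨half k l m a b z w hk1 hl1 hm0 e1 ha0 hb0 ha1 hb1 hz hw ha hb h1 h2,
    half l k m b a w z hl1 hk1 hm0 e2 hb0 ha0 hb1 ha1 hw hz hb ha h2 h1⟩

end XDx

open XDx in
theorem tX_dom : X_dom := by
  intro N C α β Q m k l a b z w hp hα hβ sα sβ hsplit hc hc1
  have hz := hp.hz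
  have hw := hp.hw
  rcases Nat.lt_or_ge C.card 2 with h2 | h2
  · rcases Nat.lt_or_ge C.card 1 with h0 | h0
    · exfalso
      have hC0 : C = ∅ := card_eq_zero.1 (by omega)
      rw [hC0, sum_empty, zero_add] at sα sβ
      have hk : 1 ≤ k := by
        by_contra hk
        have : k = 0 := by omega
        have ha := hp.ha
        rw [this, sα] at ha
        norm_num at ha
      have hl : 1 ≤ l := by
        by_contra hl
        have : l = 0 := by omega
        have hb := hp.hb
        rw [this, sβ] at hb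
        norm_num at hb
      have := (halfX Q m k l a b z w hp hk hl).1
      rw [sα] at this
      norm_num at this
    · have hC1 : C.card = 1 := by omega
      obtain ⟨hk, hl⟩ := hc1 hC1
      obtain ⟨h3, h4⟩ := halfX Q m k l a b z w hp hk hl
      obtain ⟨t, rfl⟩ := card_eq_one.1 hC1
      rw [sum_singleton] at sα sβ
      exact ⟨t, mem_singleton_self t, by linarith, by linarith⟩
  · have hCn : C.Nonempty := card_pos.1 (by omega)
    obtain ⟨t, ht, i1, i2, i3⟩ := median C α β m a b z w hz hw hp.ha1 hα hβ sα sβ hsplit hCn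
    obtain ⟨h3, h4⟩ := num Q m k l a b z w hp (by omega) (α t) (β t) i1 i2 i3
    exact ⟨t, ht, h3, h4⟩

end R745CDX
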