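import Pool.Agent.R745.CDX.Defs

/-! CDX-XS2A (MP_990a44_co): pairs two coordinates down. -/

namespace R745CDX

open Finset H825CD

namespace XS2Ax

theorem sup2 {ι : Type} [Fintype ι] [DecidableEq ι] {Q : ℕ} {S : Finset ι}
    {A A1 : Finset (ι → Fin (Q + 1))} (hA : Sup S A) (hA1 : A1 ⊆ A) (j i : ι) :
    Sup ((S.erase j).erase i) (A1.image (fun a => er i (er j a))) := by
  intro a' ha' k hk
  obtain ⟨a, ha, rfl⟩ := Finset.mem_image.mp ha'
  by_cases h1 : k = i
  · subst h1; simp [er]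
  · by_cases h2 : k = j
    · subst h2; simp [er, h1]
    · have h3 : k ∉ S := fun h => hk (Finset.mem_erase.mpr ⟨h1, Finset.mem_erase.mpr ⟨h2, h⟩⟩)
      simp [er, h1, h2, hA a (hA1 ha) k h3]

theorem d2 (h : S_dist) {ι : Type} [Fintype ι] [DecidableEq ι] {Q : ℕ} {j i : ι} (hij : i ≠ j)
    (a b : ι → Fin (Q + 1)) :
    hammingDist a b = hammingDist (er i (er j a)) (er i (er j b)) +
      (if a j = b j then 0 else 1) + (if a i = b i then 0 else 1) := by
  have e1 : er j a i = a i := by simp [er, hij]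
  have e2 : er j b i = b i := by simp [er, hij]
  have h1 := h ι Q j a b
  have h2 := h ι Q i (er j a) (er j b)
  rw [e1, e2] at h2
  by_cases hj : a j = b j
  · have h3 := h1.2 hj
    rw [if_pos hj]
    by_cases hi : a i = b i
    · have h4 := h2.2 hi
      rw [if_pos hi]
      omega
    · have h4 := h2.1 hi
      rw [if_neg hi]
      omega
  · have h3 := h1.1 hj
    rw [if_neg hj]
    by_cases hi : a i = b i
    · have h4 := h2.2 hi
      rw [if_pos hi]
      omega
    · have h4 := h2.1 hi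
      rw [if_neg hi]
      omega

end XS2Ax

open XS2Ax in
theorem tX_s2a (h : S_dist) : X_s2a := by
  intro ι _ _ Q S δ M A B hC j hj i hi hij x y hx hy hp
  -- letters at `j`
  have hpj : ∀ a ∈ A, ∀ b ∈ B, a j ≠ x → a j ≠ b j := by
    intro a ha b hb hax hab
    have h1 : a j ∈ com A B j := by
      unfold com used
      rw [mem_inter, mem_image, mem_image]
      exact ⟨⟨a, ha, rfl⟩, ⟨b, hb, hab.symm⟩⟩
    rw [hx, mem_singleton] at h1
    exact hax h1
  have hpj' : ∀ a ∈ A, ∀ b ∈ B, b j ≠ x → a j ≠ b j := by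
    intro a ha b hb hbx hab
    exact hpj a ha b hb (by rw [hab]; exact hbx) hab
  have hpi : ∀ a ∈ A, ∀ b ∈ B, a i ∈ pur A B i → a i ≠ b i := by
    intro a ha b hb hai hab
    unfold pur at hai
    rw [mem_sdiff] at hai
    exact hai.2 (by
      unfold used
      rw [mem_image]
      exact ⟨b, hb, hab.symm⟩)
  obtain ⟨b0, hb0, hb0y⟩ : ∃ b ∈ B, b i = y := by
    unfold com used at hy
    rw [mem_inter, mem_image, mem_image] at hy
    exact hy.2
  obtain ⟨a0, ha0⟩ : (A.filter (fun a => a j = x ∧ a i = y)).Nonempty := by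
    rw [← card_pos]
    exact Nat.pos_of_ne_zero hp
  rw [mem_filter] at ha0
  obtain ⟨ha0, ha0j, ha0i⟩ := ha0
  set f : (ι → Fin (Q + 1)) → (ι → Fin (Q + 1)) := fun a => er i (er j a) with hf
  set A1 := A.filter (fun a => a j ≠ x ∧ a i = y) with hA1
  set A2 := A.filter (fun a => a j ≠ x ∧ a i ∈ pur A B i) with hA2
  set B1 := B.filter (fun a => a j = x ∧ a i ≠ y) with hB1
  set B2 := B.filter (fun a => a j ≠ x ∧ a i ≠ y) with hB2
  have hdA : Disjoint (A1.image f) (A2.image f) := by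
    rw [Finset.disjoint_left]
    intro u hu1 hu2
    obtain ⟨a, ha, rfl⟩ := mem_image.1 hu1
    obtain ⟨a', ha', he⟩ := mem_image.1 hu2
    rw [hA1, mem_filter] at ha
    rw [hA2, mem_filter] at ha'
    have e1 := d2 h hij a b0
    have e2 := d2 h hij a' b0
    rw [hC.dist a ha.1 b0 hb0, if_neg (hpj a ha.1 b0 hb0 ha.2.1),
      if_pos (by rw [ha.2.2, hb0y])] at e1
    rw [hC.dist a' ha'.1 b0 hb0, if_neg (hpj a' ha'.1 b0 hb0 ha'.2.1),
      if_neg (hpi a' ha'.1 b0 hb0 ha'.2.2)] at e2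
    have e3 : er i (er j a') = er i (er j a) := he
    rw [e3] at e2
    omega
  have hdB : Disjoint (B1.image f) (B2.image f) := by
    rw [Finset.disjoint_left]
    intro u hu1 hu2
    obtain ⟨b, hb, rfl⟩ := mem_image.1 hu1
    obtain ⟨b', hb', he⟩ := mem_image.1 hu2
    rw [hB1, mem_filter] at hb
    rw [hB2, mem_filter] at hb'
    have e1 := d2 h hij a0 b
    have e2 := d2 h hij a0 b'
    rw [hC.dist a0 ha0 b hb.1, if_pos (by rw [ha0j, hb.2.1]),
      if_neg (by rw [ha0i]; exact fun h' => hb.2.2 h'.symm)] at e1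
    rw [hC.dist a0 ha0 b' hb'.1, if_neg (hpj' a0 ha0 b' hb'.1 hb'.2.1),
      if_neg (by rw [ha0i]; exact fun h' => hb'.2.2 h'.symm)] at e2
    have e3 : er i (er j b') = er i (er j b) := he
    rw [e3] at e2
    omega
  have key := hC.ih2 j hj i hi hij ((A1 ∪ A2).image f) ((B1 ∪ B2).image f)
    (sup2 hC.supA (union_subset (filter_subset _ _) (filter_subset _ _)) j i)
    (sup2 hC.supB (union_subset (filter_subset _ _) (filter_subset _ _)) j i) (by
      intro a' ha' b' hb'
      obtain ⟨a, ha, rfl⟩ := mem_image.1 ha'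
      obtain ⟨b, hb, rfl⟩ := mem_image.1 hb'
      have hbB : b ∈ B ∧ b i ≠ y := by
        rcases mem_union.1 hb with hb | hb
        · exact ⟨(mem_filter.1 hb).1, (mem_filter.1 hb).2.2⟩
        · exact ⟨(mem_filter.1 hb).1, (mem_filter.1 hb).2.2⟩
      have haA : a ∈ A ∧ a j ≠ x ∧ a i ≠ b i := by
        rcases mem_union.1 ha with ha | ha
        · rw [hA1, mem_filter] at ha
          exact ⟨ha.1, ha.2.1, by rw [ha.2.2]; exact fun h' => hbB.2 h'.symm⟩
        · rw [hA2, mem_filter] at ha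
          exact ⟨ha.1, ha.2.1, hpi a ha.1 b hbB.1 ha.2.2⟩
      have e1 := d2 h hij a b
      rw [hC.dist a haA.1 b hbB.1, if_neg (hpj a haA.1 b hbB.1 haA.2.1), if_neg haA.2.2] at e1
      show hammingDist (er i (er j a)) (er i (er j b)) + 2 = δ
      omega)
  rw [image_union, image_union, card_union_of_disjoint hdA, card_union_of_disjoint hdB] at key
  exact key

end R745CDX
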